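import Pool.Agent.Helper7.EC_E.GoalsS

/-! Packet ASM of MP_ecc237_nt, part E: only the main terms matter. -/

set_option autoImplicit false

open MeasureTheory Filter Topology Set

namespace EC237.ZE.PkASM

lemma rk_ge {s : ℤ × ℤ} (hs : s ≠ 0) : 1 ≤ rk s := by
  unfold rk
  rw [Real.one_le_sqrt]
  have h0 : s.1 ≠ 0 ∨ s.2 ≠ 0 := by
    by_contra h
    push Not at h
    exact hs (Prod.ext h.1 h.2)
  have h1 : (1:ℤ) ≤ s.1 ^ 2 + s.2 ^ 2 := by
    rcases h0 with h | h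
    · have : 0 < s.1 ^ 2 := by positivity
      nlinarith [sq_nonneg s.2]
    · have : 0 < s.2 ^ 2 := by positivity
      nlinarith [sq_nonneg s.1]
  exact_mod_cast h1

lemma rk_sq_le {z : ℝ} (hz : 1 ≤ z) (s : ℤ × ℤ) : rk s ^ 2 ≤ Nz z s := by
  unfold rk Nz
  rw [Real.sq_sqrt (by positivity)]
  nlinarith [sq_nonneg (s.1:ℝ), mul_nonneg (sq_nonneg (s.1:ℝ)) (by nlinarith : (0:ℝ) ≤ z ^ 2 - 1)]

lemma Nn_eq {z : ℝ} (hz : 1 ≤ z) (s : ℤ × ℤ) : Nn z⁻¹ s = Nz z s / z ^ 2 := by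
  have : z ≠ 0 := by positivity
  unfold Nn Nz
  field_simp
  ring

lemma key {C D z r N : ℝ} (hC : 0 ≤ C) (hD : 0 ≤ D) (hz : 1 ≤ z) (hr : 1 ≤ r) (hN : r ^ 2 ≤ N)
    {a b Y V : ℂ} (ha : ‖a‖ ≤ C * z ^ 2 * r ^ (-(1 / 2) : ℝ))
    (hb : ‖b‖ ≤ C * z ^ 2 * r ^ (-(1 / 2) : ℝ))
    (hY : ‖Y - Complex.I * z ^ 2 * a‖ ≤ D * Real.exp (-(z / 2)) / r)
    (hV : ‖V - Complex.I * z ^ 2 * b‖ ≤ D * Real.exp (-(z / 2)) / r) :
    ‖-(2 / 3 * ((z⁻¹ : ℝ) : ℂ) ^ 3) * (Y * V / ((N / z ^ 2 : ℝ) : ℂ)) -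
        2 / 3 * (z:ℂ) ^ 3 * (a * b) / (N : ℂ)‖ ≤
      (2 * C * D + D ^ 2) * (z ^ 3 * Real.exp (-(z / 2))) * r ^ (-(5 / 2) : ℝ) := by
  have hr0 : 0 < r := by linarith
  have hz0 : 0 < z := by linarith
  have hN0 : 0 < N := lt_of_lt_of_le (by positivity) hN
  set q : ℝ := r ^ (-(1 / 2) : ℝ) with hq
  have hq0 : 0 < q := by positivity
  have hq1 : q ≤ 1 := Real.rpow_le_one_of_one_le_of_nonpos hr (by norm_num)
  have hq2 : q ^ 2 = 1 / r := by
    rw [hq, ← Real.rpow_natCast, ← Real.rpow_mul hr0.le]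
    norm_num
    rw [Real.rpow_neg_one]
  have hq5 : r ^ (-(5 / 2) : ℝ) = q ^ 5 := by
    rw [hq, ← Real.rpow_natCast, ← Real.rpow_mul hr0.le]
    norm_num
  rw [hq5]
  set E : ℝ := Real.exp (-(z / 2)) with hE
  have hE0 : 0 < E := Real.exp_pos _
  have hE1 : E ≤ 1 := by
    rw [hE]; apply Real.exp_le_one_iff.2; linarith
  set e : ℂ := Y - Complex.I * z ^ 2 * a with he
  set f : ℂ := V - Complex.I * z ^ 2 * b with hf
  have hY' : ‖e‖ ≤ D * E * q ^ 2 := by rw [hq2]; convert hY using 1; ring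
  have hV' : ‖f‖ ≤ D * E * q ^ 2 := by rw [hq2]; convert hV using 1; ring
  have hYe : Y = e + Complex.I * z ^ 2 * a := by rw [he]; ring
  have hVf : V = f + Complex.I * z ^ 2 * b := by rw [hf]; ring
  have hzC : (z:ℂ) ≠ 0 := by exact_mod_cast hz0.ne'
  have hNC : (N:ℂ) ≠ 0 := by exact_mod_cast hN0.ne'
  have heq : -(2 / 3 * ((z⁻¹ : ℝ) : ℂ) ^ 3) * (Y * V / ((N / z ^ 2 : ℝ) : ℂ)) -
        2 / 3 * (z:ℂ) ^ 3 * (a * b) / (N : ℂ) =
      -(2 / 3 * (z:ℂ)⁻¹ * (N:ℂ)⁻¹) * (Complex.I * (z:ℂ) ^ 2 * (a * f + b * e) + e * f) := by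
    rw [hYe, hVf]
    push_cast
    field_simp
    ring_nf
    rw [Complex.I_sq]
    ring
  rw [heq, norm_mul]
  have h1 : ‖-(2 / 3 * (z:ℂ)⁻¹ * (N:ℂ)⁻¹)‖ = 2 / 3 * z⁻¹ * N⁻¹ := by
    rw [norm_neg, norm_mul, norm_mul, norm_inv, norm_inv, Complex.norm_of_nonneg hz0.le,
      Complex.norm_of_nonneg hN0.le]
    norm_num
  rw [h1]
  have h2 : ‖Complex.I * (z:ℂ) ^ 2 * (a * f + b * e) + e * f‖ ≤
      z ^ 2 * (C * z ^ 2 * q * (D * E * q ^ 2) + C * z ^ 2 * q * (D * E * q ^ 2)) +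
        (D * E * q ^ 2) * (D * E * q ^ 2) := by
    refine (norm_add_le _ _).trans (add_le_add ?_ ?_)
    · rw [norm_mul, norm_mul, Complex.norm_I, one_mul, norm_pow, Complex.norm_of_nonneg hz0.le]
      refine mul_le_mul_of_nonneg_left ?_ (by positivity)
      refine (norm_add_le _ _).trans (add_le_add ?_ ?_)
      · rw [norm_mul]
        exact mul_le_mul ha hV' (norm_nonneg _) (by positivity)
      · rw [norm_mul]
        exact mul_le_mul hb hY' (norm_nonneg _) (by positivity)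
    · rw [norm_mul]
      exact mul_le_mul hY' hV' (norm_nonneg _) (by positivity)
  have hNinv : N⁻¹ ≤ q ^ 4 := by
    have : q ^ 4 = (r ^ 2)⁻¹ := by
      have : q ^ 4 = (q ^ 2) ^ 2 := by ring
      rw [this, hq2]; field_simp
    rw [this]
    exact inv_anti₀ (by positivity) hN
  calc 2 / 3 * z⁻¹ * N⁻¹ * ‖Complex.I * (z:ℂ) ^ 2 * (a * f + b * e) + e * f‖
      ≤ 2 / 3 * z⁻¹ * q ^ 4 * (z ^ 2 * (C * z ^ 2 * q * (D * E * q ^ 2) +
        C * z ^ 2 * q * (D * E * q ^ 2)) + (D * E * q ^ 2) * (D * E * q ^ 2)) := by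
        apply mul_le_mul _ h2 (norm_nonneg _) (by positivity)
        exact mul_le_mul_of_nonneg_left hNinv (by positivity)
    _ = 2 / 3 * (2 * C * D * z ^ 3 * E * q ^ 7 + D ^ 2 * (z⁻¹ * (E * E)) * q ^ 8) := by
        field_simp
        ring
    _ ≤ 1 * (2 * C * D * z ^ 3 * E * q ^ 5 + D ^ 2 * (z ^ 3 * E) * q ^ 5) := by
        have h7 : q ^ 7 ≤ q ^ 5 := pow_le_pow_of_le_one hq0.le hq1 (by norm_num)
        have h8 : q ^ 8 ≤ q ^ 5 := pow_le_pow_of_le_one hq0.le hq1 (by norm_num)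
        have hzi : z⁻¹ ≤ z ^ 3 := by
          have h3 : z⁻¹ ≤ 1 := inv_le_one_of_one_le₀ hz
          have h4 : (1:ℝ) ≤ z ^ 3 := one_le_pow₀ hz
          linarith
        have hEE : E * E ≤ E := by nlinarith
        have hze : z⁻¹ * (E * E) ≤ z ^ 3 * E := mul_le_mul hzi hEE (by positivity) (by positivity)
        apply mul_le_mul (by norm_num) _ (by positivity) (by norm_num)
        apply add_le_add
        · exact mul_le_mul_of_nonneg_left h7 (by positivity)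
        · refine mul_le_mul (mul_le_mul_of_nonneg_left hze (by positivity)) h8 (by positivity)
            (by positivity)
    _ = _ := by ring

lemma key2 {C z r N : ℝ} (hC : 0 ≤ C) (hz : 1 ≤ z) (hr : 1 ≤ r) (hN : r ^ 2 ≤ N)
    {a b : ℂ} (ha : ‖a‖ ≤ C * z ^ 2 * r ^ (-(1 / 2) : ℝ))
    (hb : ‖b‖ ≤ C * z ^ 2 * r ^ (-(1 / 2) : ℝ)) :
    ‖2 / 3 * (z:ℂ) ^ 3 * (a * b) / (N : ℂ)‖ ≤ C ^ 2 * z ^ 7 * r ^ (-(5 / 2) : ℝ) := by
  have hr0 : 0 < r := by linarith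
  have hz0 : 0 < z := by linarith
  have hN0 : 0 < N := lt_of_lt_of_le (by positivity) hN
  set q : ℝ := r ^ (-(1 / 2) : ℝ) with hq
  have hq0 : 0 < q := by positivity
  have hq1 : q ≤ 1 := Real.rpow_le_one_of_one_le_of_nonpos hr (by norm_num)
  have hq2 : q ^ 2 = 1 / r := by
    rw [hq, ← Real.rpow_natCast, ← Real.rpow_mul hr0.le]
    norm_num
    rw [Real.rpow_neg_one]
  have hq5 : r ^ (-(5 / 2) : ℝ) = q ^ 5 := by
    rw [hq, ← Real.rpow_natCast, ← Real.rpow_mul hr0.le]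
    norm_num
  rw [hq5]
  have hNinv : N⁻¹ ≤ q ^ 4 := by
    have : q ^ 4 = (r ^ 2)⁻¹ := by
      have : q ^ 4 = (q ^ 2) ^ 2 := by ring
      rw [this, hq2]; field_simp
    rw [this]
    exact inv_anti₀ (by positivity) hN
  rw [norm_div, norm_mul, norm_mul, norm_mul, norm_pow, Complex.norm_of_nonneg hz0.le,
    Complex.norm_of_nonneg hN0.le, div_eq_mul_inv]
  have h23 : ‖(2 / 3 : ℂ)‖ = 2 / 3 := by norm_num
  rw [h23]
  calc 2 / 3 * z ^ 3 * (‖a‖ * ‖b‖) * N⁻¹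
      ≤ 2 / 3 * z ^ 3 * ((C * z ^ 2 * q) * (C * z ^ 2 * q)) * q ^ 4 := by
        apply mul_le_mul _ hNinv (by positivity) (by positivity)
        apply mul_le_mul_of_nonneg_left _ (by positivity)
        exact mul_le_mul ha hb (norm_nonneg _) (by positivity)
    _ = 2 / 3 * (C ^ 2 * z ^ 7 * q ^ 6) := by ring
    _ ≤ 1 * (C ^ 2 * z ^ 7 * q ^ 5) := by
        apply mul_le_mul (by norm_num) _ (by positivity) (by norm_num)
        exact mul_le_mul_of_nonneg_left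
          (pow_le_pow_of_le_one hq0.le hq1 (by norm_num)) (by positivity)
    _ = _ := by ring

lemma cl2 {s : ℤ × ℤ} (h : InCl 2 s) : s.2 ≠ 0 ∧ s ≠ 0 := by
  have h2 : s.2 ≠ 0 := by
    intro h0
    unfold InCl at h
    rw [h0] at h
    omega
  exact ⟨h2, fun h0 => h2 (by rw [h0]; rfl)⟩

lemma le_zz {C z q x : ℝ} (hC : 0 ≤ C) (hq : 0 ≤ q) (hz : 1 ≤ z) (h : x ≤ C * z * q) :
    x ≤ C * z ^ 2 * q := by
  refine h.trans ?_
  apply mul_le_mul_of_nonneg_right _ hq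
  apply mul_le_mul_of_nonneg_left _ hC
  nlinarith

theorem thm (h1 : EC237.ZE.G_RED) (h2 : EC237.ZE.G_EY) (h3 : EC237.ZE.G_EE) (h4 : EC237.ZE.G_FY)
    (h5 : EC237.ZE.G_FE) (h6 : EC237.ZE.G_MBD) (h7 : EC237.B4) : EC237.ZE.G_ASM := by
  obtain ⟨C1, hC1, hEY⟩ := h2
  obtain ⟨C2, hC2, hEE⟩ := h3
  obtain ⟨C, hC, hMB⟩ := h6
  have hpw : Summable pw := h7.1
  -- bounds for the A part
  have hA : ∀ z : ℝ, 1 ≤ z → ∀ s : ℤ × ℤ,
      ‖tA z s‖ ≤ C ^ 2 * z ^ 7 * pw s ∧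
      ‖-(2 / 3 * ((z⁻¹ : ℝ) : ℂ) ^ 3) * eA z⁻¹ s - tA z s‖ ≤
        (2 * C * (2 * C1) + (2 * C1) ^ 2) * (z ^ 3 * Real.exp (-(z / 2))) * pw s := by
    intro z hz s
    have hz0 : 0 < z := by linarith
    by_cases hs : InCl 2 s
    · obtain ⟨hs2, hs0⟩ := cl2 hs
      have hr := rk_ge hs0
      have hN := rk_sq_le hz s
      have hq : 0 ≤ rk s ^ (-(1 / 2) : ℝ) := by positivity
      obtain ⟨hy, hv⟩ := (hMB z hz s).1 hs2
      have hy' := le_zz hC.le hq hz hy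
      have hv' := le_zz hC.le hq hz hv
      obtain ⟨-, hY, -, hW⟩ := hEY z hz s hs
      obtain ⟨fy, fw⟩ := h4 z hz0 s hs2
      have hr0 : 0 < rk s := by linarith
      refine ⟨?_, ?_⟩
      · unfold tA
        rw [if_pos hs]
        exact key2 hC.le hz hr hN hy' hv'
      · unfold tA eA
        rw [if_pos hs, if_pos hs, Nn_eq hz]
        apply key hC.le (by positivity) hz hr hN hy' hv'
        · rw [← fy]
          refine hY.trans ?_
          gcongr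
          linarith
        · rw [← fw]
          have : Wv ((z⁻¹:ℝ):ℂ) s - Yv ((z⁻¹:ℝ):ℂ) s -
              (∑' n : ℤ, -(Complex.I * z ^ 3) * (MW' z (-s) n + star (MW' z (-s) n)) -
                ∑' n : ℤ, -(Complex.I * z ^ 3) * (MY' z s n + star (MY' z s n))) =
              (Wv ((z⁻¹:ℝ):ℂ) s -
                ∑' n : ℤ, -(Complex.I * z ^ 3) * (MW' z (-s) n + star (MW' z (-s) n))) -
              (Yv ((z⁻¹:ℝ):ℂ) s -
                ∑' n : ℤ, -(Complex.I * z ^ 3) * (MY' z s n + star (MY' z s n))) := by ring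
          rw [this]
          refine (norm_sub_le _ _).trans ?_
          refine (add_le_add hW hY).trans (le_of_eq ?_)
          ring
    · have hp : 0 ≤ pw s := by unfold pw; exact Real.rpow_nonneg (Real.sqrt_nonneg _) _
      unfold tA eA
      rw [if_neg hs, if_neg hs]
      simp only [mul_zero, sub_zero, norm_zero]
      exact ⟨by positivity, by positivity⟩
  have hB : ∀ z : ℝ, 1 ≤ z → ∀ s : ℤ × ℤ,
      ‖tB z s‖ ≤ C ^ 2 * z ^ 7 * pw s ∧
      ‖-(2 / 3 * ((z⁻¹ : ℝ) : ℂ) ^ 3) * eB z⁻¹ s - tB z s‖ ≤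
        (2 * C * C2 + C2 ^ 2) * (z ^ 3 * Real.exp (-(z / 2))) * pw s := by
    intro z hz s
    have hz0 : 0 < z := by linarith
    have hp : 0 ≤ pw s := by unfold pw; exact Real.rpow_nonneg (Real.sqrt_nonneg _) _
    by_cases hs : InCl 0 s
    · by_cases hs0 : s = 0
      · have e1 : Nn z⁻¹ s = 0 := by subst hs0; simp [Nn]
        have e2 : Nz z s = 0 := by subst hs0; simp [Nz]
        unfold tB eB
        rw [if_pos hs, if_pos hs, e1, e2]
        simp only [Complex.ofReal_zero, div_zero, mul_zero, sub_zero, norm_zero]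
        exact ⟨by positivity, by positivity⟩
      have hr := rk_ge hs0
      have hN := rk_sq_le hz s
      obtain ⟨he0, he2⟩ := (hMB z hz s).2 hs0
      obtain ⟨S0, hE0, S2, hE2⟩ := hEE z hz s hs hs0
      obtain ⟨f0, f2⟩ := h5 z hz0 s hs0 S0 S2
      refine ⟨?_, ?_⟩
      · unfold tB
        rw [if_pos hs]
        exact key2 hC.le hz hr hN he0 he2
      · unfold tB eB
        rw [if_pos hs, if_pos hs, Nn_eq hz]
        apply key hC.le hC2.le hz hr hN he0 he2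
        · rw [← f0]; exact hE0
        · rw [← f2]; exact hE2
    · unfold tB eB
      rw [if_neg hs, if_neg hs]
      simp only [mul_zero, sub_zero, norm_zero]
      exact ⟨by positivity, by positivity⟩
  have hsA : ∀ z : ℝ, 1 ≤ z → Summable (tA z) := fun z hz =>
    Summable.of_norm_bounded (hpw.mul_left (C ^ 2 * z ^ 7)) (fun s => (hA z hz s).1)
  have hsB : ∀ z : ℝ, 1 ≤ z → Summable (tB z) := fun z hz =>
    Summable.of_norm_bounded (hpw.mul_left (C ^ 2 * z ^ 7)) (fun s => (hB z hz s).1)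
  refine ⟨fun z hz => ⟨hsA z hz, hsB z hz⟩, ?_⟩
  set K : ℝ := ((2 * C * (2 * C1) + (2 * C1) ^ 2) + (2 * C * C2 + C2 ^ 2)) * ∑' s, pw s with hK
  have hlim : Tendsto (fun z : ℝ => K * (z ^ 3 * Real.exp (-(z / 2)))) atTop (𝓝 0) := by
    have h := (Real.tendsto_pow_mul_exp_neg_atTop_nhds_zero 3).comp
      (tendsto_id.atTop_mul_const (by norm_num : (0:ℝ) < 1 / 2))
    have h' := h.const_mul (K * 8)
    rw [mul_zero] at h'
    refine h'.congr (fun z => ?_)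
    simp only [Function.comp_apply, id]
    have : -(z * (1 / 2)) = -(z / 2) := by ring
    rw [this]
    ring
  refine squeeze_zero_norm' ?_ hlim
  filter_upwards [eventually_ge_atTop (1:ℝ)] with z hz
  have hz0 : 0 < z := by linarith
  obtain ⟨r1, r2, r3⟩ := h1 z⁻¹ (by positivity)
  rw [r3]
  set c : ℂ := -(2 / 3 * ((z⁻¹ : ℝ) : ℂ) ^ 3) with hc
  have e1 : c * (∑' s : ℤ × ℤ, eA z⁻¹ s + ∑' s : ℤ × ℤ, eB z⁻¹ s) -
      (∑' s : ℤ × ℤ, tA z s + ∑' s : ℤ × ℤ, tB z s) =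
      ∑' s : ℤ × ℤ, (c * eA z⁻¹ s - tA z s) + ∑' s : ℤ × ℤ, (c * eB z⁻¹ s - tB z s) := by
    rw [(r1.mul_left c).tsum_sub (hsA z hz), (r2.mul_left c).tsum_sub (hsB z hz), tsum_mul_left,
      tsum_mul_left]
    ring
  rw [e1]
  refine (norm_add_le _ _).trans ?_
  have i1 : ‖∑' s : ℤ × ℤ, (c * eA z⁻¹ s - tA z s)‖ ≤
      (2 * C * (2 * C1) + (2 * C1) ^ 2) * (z ^ 3 * Real.exp (-(z / 2))) * ∑' s, pw s := by
    rw [← tsum_mul_left]
    exact tsum_of_norm_bounded (hpw.mul_left _).hasSum (fun s => (hA z hz s).2)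
  have i2 : ‖∑' s : ℤ × ℤ, (c * eB z⁻¹ s - tB z s)‖ ≤
      (2 * C * C2 + C2 ^ 2) * (z ^ 3 * Real.exp (-(z / 2))) * ∑' s, pw s := by
    rw [← tsum_mul_left]
    exact tsum_of_norm_bounded (hpw.mul_left _).hasSum (fun s => (hB z hz s).2)
  refine (add_le_add i1 i2).trans (le_of_eq ?_)
  rw [hK]
  ring

end EC237.ZE.PkASM
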