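import Pool.Agent.Helper7.EC_E.GoalsS

/-! Packet K0F of MP_ecc237_nt, part E: the functions of the case `k = 0`. -/

set_option autoImplicit false

open MeasureTheory Filter Topology Set

namespace EC237.ZE.PkK0F

/-- real version of `Aj` -/
noncomputable def a (j : ℕ) : ℝ := 2 * ((j:ℝ) + 1)

lemma Aj_eq (j : ℕ) : Aj j = (a j : ℂ) := by unfold Aj a; push_cast; ring

lemma a_ge (j : ℕ) : 2 ≤ a j := by
  unfold a
  have : (0:ℝ) ≤ j := Nat.cast_nonneg j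
  linarith

lemma sum_a (n : ℕ) (hn : 2 ≤ n) : Summable (fun j : ℕ => 1 / a j ^ n) := by
  have h : Summable (fun j : ℕ => 1 / ((j:ℝ) + 1) ^ n) := by
    have := (summable_nat_add_iff 1).2 (Real.summable_one_div_nat_pow.2 (by omega : 1 < n))
    refine this.congr (fun j => ?_)
    push_cast
    rfl
  refine (h.mul_left (1 / 2 ^ n)).congr (fun j => ?_)
  unfold a
  rw [mul_pow]
  have : (0:ℝ) < (j:ℝ) + 1 := by positivity
  field_simp

/-- the strip -/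
def St : Set ℂ := {t : ℂ | |t.im| < 1}

lemma isOpen_St : IsOpen St := by
  unfold St
  exact isOpen_lt (Complex.continuous_im.abs) continuous_const

lemma low {t : ℂ} (ht : |t.im| ≤ 1) (j : ℕ) :
    3 / 4 * (t.re ^ 2 + a j ^ 2) ≤ ‖t ^ 2 + (a j : ℂ) ^ 2‖ := by
  have h1 : (t ^ 2 + (a j : ℂ) ^ 2).re ≤ ‖t ^ 2 + (a j : ℂ) ^ 2‖ := Complex.re_le_norm _
  have h2 : (t ^ 2 + (a j : ℂ) ^ 2).re = t.re ^ 2 - t.im ^ 2 + a j ^ 2 := by
    rw [Complex.add_re, sq, sq, Complex.mul_re, Complex.mul_re, Complex.ofReal_re,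
      Complex.ofReal_im]
    ring
  rw [h2] at h1
  have h3 : t.im ^ 2 ≤ 1 := by
    have := sq_abs t.im
    nlinarith [abs_nonneg t.im]
  have h4 := a_ge j
  nlinarith [sq_nonneg t.re]

lemma low1 {t : ℂ} (ht : |t.im| ≤ 1 / 2) : 3 / 4 * (1 + t.re ^ 2) ≤ ‖1 + t ^ 2‖ := by
  have h1 : (1 + t ^ 2).re ≤ ‖1 + t ^ 2‖ := Complex.re_le_norm _
  have h2 : (1 + t ^ 2).re = 1 + (t.re ^ 2 - t.im ^ 2) := by
    rw [Complex.add_re, sq, Complex.mul_re, Complex.one_re]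
    ring
  rw [h2] at h1
  have h3 : t.im ^ 2 ≤ 1 / 4 := by
    have := sq_abs t.im
    nlinarith [abs_nonneg t.im]
  nlinarith [sq_nonneg t.re]

lemma normsq_le {t : ℂ} (ht : |t.im| ≤ 1) : ‖t‖ ^ 2 ≤ t.re ^ 2 + 1 := by
  rw [← Complex.normSq_eq_norm_sq, Complex.normSq_apply]
  have := sq_abs t.im
  nlinarith [abs_nonneg t.im]

lemma ne0 {t : ℂ} (ht : |t.im| ≤ 1) (j : ℕ) : t ^ 2 + (a j : ℂ) ^ 2 ≠ 0 := by
  intro h
  have h1 := low ht j
  rw [h, norm_zero] at h1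
  have := a_ge j
  nlinarith [sq_nonneg t.re]

lemma aC (j : ℕ) : (a j : ℂ) ≠ 0 := by
  have := a_ge j
  exact_mod_cast (by linarith : (a j) ≠ 0)

/-- bound of the terms of `gh` -/
lemma bG {t : ℂ} (ht : |t.im| ≤ 1) (j : ℕ) :
    ‖Aj j / (t ^ 2 + Aj j ^ 2) ^ 2‖ ≤ 16 / 9 * (1 / Real.sqrt (1 + t.re ^ 2)) * (1 / a j ^ 2) := by
  rw [Aj_eq, norm_div, norm_pow]
  have ha := a_ge j
  rw [Complex.norm_of_nonneg (by linarith)]
  have hl := low ht j
  set R := Real.sqrt (1 + t.re ^ 2) with hR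
  have hR0 : 0 < R := Real.sqrt_pos.2 (by positivity)
  have hR2 : R ^ 2 = 1 + t.re ^ 2 := Real.sq_sqrt (by positivity)
  set p := t.re ^ 2 + a j ^ 2 with hp
  have hpR : R ^ 2 ≤ p := by rw [hR2, hp]; nlinarith
  have hpa : a j ^ 2 ≤ p := by rw [hp]; nlinarith [sq_nonneg t.re]
  have hp0 : 0 < p := by nlinarith
  have hpRa : R * a j ≤ p := by nlinarith [sq_nonneg (R - a j)]
  have h2 : (3 / 4 * p) ^ 2 ≤ ‖t ^ 2 + (a j : ℂ) ^ 2‖ ^ 2 :=
    pow_le_pow_left₀ (by positivity) hl 2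
  have h3 : R * a j * a j ^ 2 ≤ p * p := mul_le_mul hpRa hpa (by positivity) hp0.le
  have h4 : 9 / 16 * (R * a j ^ 3) ≤ ‖t ^ 2 + (a j : ℂ) ^ 2‖ ^ 2 := by
    nlinarith
  have ha0 : 0 < a j := by linarith
  calc a j / ‖t ^ 2 + (a j : ℂ) ^ 2‖ ^ 2 ≤ a j / (9 / 16 * (R * a j ^ 3)) :=
        div_le_div_of_nonneg_left ha0.le (by positivity) h4
    _ = _ := by field_simp

/-- bound of the terms of `g2` -/
lemma bH {t : ℂ} (ht : |t.im| ≤ 1) (j : ℕ) :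
    ‖(t ^ 2 + 2 * Aj j ^ 2) / (Aj j ^ 3 * (t ^ 2 + Aj j ^ 2) ^ 2)‖ ≤
      16 / 3 * (1 / (1 + t.re ^ 2)) * (1 / a j ^ 3) := by
  rw [Aj_eq, norm_div, norm_mul, norm_pow, norm_pow]
  have ha := a_ge j
  rw [Complex.norm_of_nonneg (by linarith)]
  have hl := low ht j
  have hn := normsq_le ht
  have ha0 : 0 < a j := by linarith
  set p := t.re ^ 2 + a j ^ 2 with hp
  have hp1 : 1 + t.re ^ 2 ≤ p := by rw [hp]; nlinarith
  have hpa : a j ^ 2 ≤ p := by rw [hp]; nlinarith [sq_nonneg t.re]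
  have hp0 : 0 < p := by nlinarith
  have h1 : ‖t ^ 2 + 2 * (a j : ℂ) ^ 2‖ ≤ 3 * p := by
    refine (norm_add_le _ _).trans ?_
    rw [norm_pow, norm_mul, norm_pow, Complex.norm_of_nonneg (by linarith)]
    have : ‖(2:ℂ)‖ = 2 := by norm_num
    rw [this]
    linarith
  have h2 : (3 / 4 * p) ^ 2 ≤ ‖t ^ 2 + (a j : ℂ) ^ 2‖ ^ 2 :=
    pow_le_pow_left₀ (by positivity) hl 2
  calc ‖t ^ 2 + 2 * (a j : ℂ) ^ 2‖ / (a j ^ 3 * ‖t ^ 2 + (a j : ℂ) ^ 2‖ ^ 2)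
      ≤ 3 * p / (a j ^ 3 * (3 / 4 * p) ^ 2) :=
        div_le_div₀ (by positivity) h1 (by positivity)
          (mul_le_mul_of_nonneg_left h2 (by positivity))
    _ = 16 / 3 * (1 / p) * (1 / a j ^ 3) := by field_simp; ring
    _ ≤ _ := by
        apply mul_le_mul_of_nonneg_right _ (by positivity)
        apply mul_le_mul_of_nonneg_left _ (by norm_num)
        exact one_div_le_one_div_of_le (by positivity) hp1

/-- bound of the terms of `g3` without the factor `1/(1+t²)` -/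
lemma bK {t : ℂ} (ht : |t.im| ≤ 1) (j : ℕ) :
    ‖t * (3 * Aj j ^ 2 - 2 * Aj j ^ 4 + (2 - Aj j ^ 2) * t ^ 2) /
      (Aj j ^ 5 * (t ^ 2 + Aj j ^ 2) ^ 2)‖ ≤ 64 / 9 * (1 / a j ^ 4) := by
  rw [Aj_eq, norm_div, norm_mul, norm_mul, norm_pow, norm_pow]
  have ha := a_ge j
  rw [Complex.norm_of_nonneg (by linarith)]
  have hl := low ht j
  have hn := normsq_le ht
  have ha0 : 0 < a j := by linarith
  set p := t.re ^ 2 + a j ^ 2 with hp
  have hp1 : 1 + t.re ^ 2 ≤ p := by rw [hp]; nlinarith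
  have hpa : a j ^ 2 ≤ p := by rw [hp]; nlinarith [sq_nonneg t.re]
  have hp0 : 0 < p := by nlinarith
  have h2 : (3 / 4 * p) ^ 2 ≤ ‖t ^ 2 + (a j : ℂ) ^ 2‖ ^ 2 :=
    pow_le_pow_left₀ (by positivity) hl 2
  have h1 : ‖(3 * (a j:ℂ) ^ 2 - 2 * (a j:ℂ) ^ 4 + (2 - (a j:ℂ) ^ 2) * t ^ 2)‖ ≤
      a j ^ 2 * (4 * p) := by
    have e1 : ‖(3 * (a j:ℂ) ^ 2 - 2 * (a j:ℂ) ^ 4)‖ ≤ 2 * a j ^ 4 := by
      have : (3 * (a j:ℂ) ^ 2 - 2 * (a j:ℂ) ^ 4) = ((3 * a j ^ 2 - 2 * a j ^ 4 : ℝ) : ℂ) := by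
        push_cast; ring
      rw [this, Complex.norm_real, Real.norm_eq_abs, abs_le]
      have h40 : (4:ℝ) ≤ a j ^ 2 := by nlinarith
      have h4 : 4 * a j ^ 2 ≤ a j ^ 4 := by
        have : a j ^ 4 = a j ^ 2 * a j ^ 2 := by ring
        rw [this]
        exact mul_le_mul_of_nonneg_right h40 (by positivity)
      constructor <;> nlinarith [sq_nonneg (a j)]
    have e2 : ‖(2 - (a j:ℂ) ^ 2) * t ^ 2‖ ≤ a j ^ 2 * p := by
      rw [norm_mul, norm_pow]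
      have : (2 - (a j:ℂ) ^ 2) = ((2 - a j ^ 2 : ℝ) : ℂ) := by push_cast; ring
      rw [this, Complex.norm_real, Real.norm_eq_abs]
      have h5 : |2 - a j ^ 2| ≤ a j ^ 2 := by rw [abs_le]; constructor <;> nlinarith
      exact mul_le_mul h5 (by linarith) (by positivity) (by positivity)
    refine (norm_add_le _ _).trans ((add_le_add e1 e2).trans ?_)
    nlinarith [mul_le_mul_of_nonneg_left hpa (sq_nonneg (a j))]
  have ht1 : a j * ‖t‖ ≤ p := by nlinarith [sq_nonneg (a j - ‖t‖), norm_nonneg t]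
  have ht2 : ‖t‖ ≤ p / a j := by rw [le_div_iff₀ ha0]; linarith
  calc ‖t‖ * ‖(3 * (a j:ℂ) ^ 2 - 2 * (a j:ℂ) ^ 4 + (2 - (a j:ℂ) ^ 2) * t ^ 2)‖ /
        (a j ^ 5 * ‖t ^ 2 + (a j : ℂ) ^ 2‖ ^ 2)
      ≤ p / a j * (a j ^ 2 * (4 * p)) / (a j ^ 5 * (3 / 4 * p) ^ 2) :=
        div_le_div₀ (by positivity) (mul_le_mul ht2 h1 (norm_nonneg _) (by positivity))
          (by positivity) (mul_le_mul_of_nonneg_left h2 (by positivity))
    _ = _ := by field_simp; ring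

lemma bG' {t : ℂ} (ht : |t.im| ≤ 1) (j : ℕ) :
    ‖Aj j / (t ^ 2 + Aj j ^ 2) ^ 2‖ ≤ 16 / 9 * (1 / a j ^ 2) := by
  refine (bG ht j).trans ?_
  apply mul_le_mul_of_nonneg_right _ (by positivity)
  have : 1 / Real.sqrt (1 + t.re ^ 2) ≤ 1 := by
    rw [div_le_one (Real.sqrt_pos.2 (by positivity))]
    rw [Real.one_le_sqrt]
    nlinarith [sq_nonneg t.re]
  linarith

lemma bH' {t : ℂ} (ht : |t.im| ≤ 1) (j : ℕ) :
    ‖(t ^ 2 + 2 * Aj j ^ 2) / (Aj j ^ 3 * (t ^ 2 + Aj j ^ 2) ^ 2)‖ ≤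
      16 / 3 * (1 / a j ^ 3) := by
  refine (bH ht j).trans ?_
  have ha0 : 0 < a j := by linarith [a_ge j]
  apply mul_le_mul_of_nonneg_right _ (by positivity)
  have : 1 / (1 + t.re ^ 2) ≤ 1 := by
    rw [div_le_one (by positivity)]
    nlinarith [sq_nonneg t.re]
  linarith

lemma sG {t : ℂ} (ht : |t.im| ≤ 1) : Summable (fun j : ℕ => Aj j / (t ^ 2 + Aj j ^ 2) ^ 2) :=
  Summable.of_norm_bounded ((sum_a 2 le_rfl).mul_left (16 / 9)) (bG' ht)

lemma sH {t : ℂ} (ht : |t.im| ≤ 1) :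
    Summable (fun j : ℕ => (t ^ 2 + 2 * Aj j ^ 2) / (Aj j ^ 3 * (t ^ 2 + Aj j ^ 2) ^ 2)) :=
  Summable.of_norm_bounded ((sum_a 3 (by norm_num)).mul_left (16 / 3)) (bH' ht)

lemma sK {t : ℂ} (ht : |t.im| ≤ 1) :
    Summable (fun j : ℕ => t * (3 * Aj j ^ 2 - 2 * Aj j ^ 4 + (2 - Aj j ^ 2) * t ^ 2) /
      (Aj j ^ 5 * (t ^ 2 + Aj j ^ 2) ^ 2)) :=
  Summable.of_norm_bounded ((sum_a 4 (by norm_num)).mul_left (64 / 9)) (bK ht)

/-- `g3` without the factor -/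
noncomputable def g3' (t : ℂ) : ℂ :=
  ∑' j : ℕ, t * (3 * Aj j ^ 2 - 2 * Aj j ^ 4 + (2 - Aj j ^ 2) * t ^ 2) /
      (Aj j ^ 5 * (t ^ 2 + Aj j ^ 2) ^ 2)

lemma g3_eq (t : ℂ) : g3 t = (1 + t ^ 2)⁻¹ * g3' t := by
  unfold g3 g3'
  rw [← tsum_mul_left]
  refine tsum_congr (fun j => ?_)
  rw [← div_div, div_eq_mul_inv _ (1 + t ^ 2)]
  ring

lemma St_le {t : ℂ} (ht : t ∈ St) : |t.im| ≤ 1 := le_of_lt ht

lemma dgh : DifferentiableOn ℂ gh St := by
  unfold gh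
  apply Complex.differentiableOn_tsum_of_summable_norm ((sum_a 2 le_rfl).mul_left (16 / 9)) _ isOpen_St
    (fun j t ht => bG' (St_le ht) j)
  intro j t ht
  have h := ne0 (St_le ht) j
  rw [← Aj_eq] at h
  apply DifferentiableAt.differentiableWithinAt
  exact (differentiableAt_const _).div (by fun_prop) (pow_ne_zero 2 h)

lemma dg2 : DifferentiableOn ℂ g2 St := by
  unfold g2
  apply DifferentiableOn.neg
  apply Complex.differentiableOn_tsum_of_summable_norm ((sum_a 3 (by norm_num)).mul_left (16 / 3)) _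
    isOpen_St (fun j t ht => bH' (St_le ht) j)
  intro j t ht
  have h := ne0 (St_le ht) j
  rw [← Aj_eq] at h
  have h' := aC j
  rw [← Aj_eq] at h'
  apply DifferentiableAt.differentiableWithinAt
  exact DifferentiableAt.div (by fun_prop) (by fun_prop)
    (mul_ne_zero (pow_ne_zero 3 h') (pow_ne_zero 2 h))

lemma dg3' : DifferentiableOn ℂ g3' St := by
  unfold g3'
  apply Complex.differentiableOn_tsum_of_summable_norm ((sum_a 4 (by norm_num)).mul_left (64 / 9)) _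
    isOpen_St (fun j t ht => bK (St_le ht) j)
  intro j t ht
  have h := ne0 (St_le ht) j
  rw [← Aj_eq] at h
  have h' := aC j
  rw [← Aj_eq] at h'
  apply DifferentiableAt.differentiableWithinAt
  exact DifferentiableAt.div (by fun_prop) (by fun_prop)
    (mul_ne_zero (pow_ne_zero 5 h') (pow_ne_zero 2 h))

lemma ne1 {t : ℂ} (ht : t ∈ St) : 1 + t ^ 2 ≠ 0 := by
  intro h
  have h2 : (1 + t ^ 2).re = 1 + (t.re ^ 2 - t.im ^ 2) := by
    rw [Complex.add_re, sq, Complex.mul_re, Complex.one_re]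
    ring
  rw [h, Complex.zero_re] at h2
  have h3 : t.im ^ 2 < 1 := by
    have h4 : |t.im| < 1 := ht
    have := sq_abs t.im
    nlinarith [abs_nonneg t.im]
  nlinarith [sq_nonneg t.re]

lemma dg3 : DifferentiableOn ℂ g3 St := by
  have : g3 = fun t => (1 + t ^ 2)⁻¹ * g3' t := funext g3_eq
  rw [this]
  apply DifferentiableOn.mul _ dg3'
  apply DifferentiableOn.inv (by fun_prop)
  exact fun t ht => ne1 ht

/-- real `gh` -/
noncomputable def ghr (t : ℝ) : ℝ := ∑' j : ℕ, a j / (t ^ 2 + a j ^ 2) ^ 2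

lemma gh_real (t : ℝ) : gh (t:ℂ) = (ghr t : ℂ) := by
  unfold gh ghr
  rw [Complex.ofReal_tsum]
  refine tsum_congr (fun j => ?_)
  rw [Aj_eq]
  push_cast
  rfl

lemma taur_real (t : ℝ) : taur 0 t = t * ghr t := by
  unfold taur ghr
  congr 1
  symm
  have hinj : Function.Injective Nat.succ := Nat.succ_injective
  have hsup : Function.support (fun j : ℕ => w0 j * (|((0:ℤ):ℝ)| + 2 * (j:ℝ)) /
      (t ^ 2 + (|((0:ℤ):ℝ)| + 2 * (j:ℝ)) ^ 2) ^ 2) ⊆ Set.range Nat.succ := by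
    intro j hj
    rcases j with _ | j
    · exfalso
      apply hj
      simp
    · exact ⟨j, rfl⟩
  rw [← hinj.tsum_eq hsup]
  refine tsum_congr (fun j => ?_)
  have : w0 (Nat.succ j) = 1 := by unfold w0; simp
  simp only [this]
  unfold a
  push_cast
  rw [abs_zero, zero_add, one_mul]

lemma tauc_eq (t : ℂ) : tauc 0 t = t * gh t := by
  unfold tauc gh
  congr 1
  symm
  have hinj : Function.Injective Nat.succ := Nat.succ_injective
  have hsup : Function.support (fun j : ℕ => (w0 j : ℂ) * ((|((0:ℤ):ℝ)| + 2 * j : ℝ) : ℂ) /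
      (t ^ 2 + ((|((0:ℤ):ℝ)| + 2 * j : ℝ) : ℂ) ^ 2) ^ 2) ⊆ Set.range Nat.succ := by
    intro j hj
    rcases j with _ | j
    · exfalso
      apply hj
      simp
    · exact ⟨j, rfl⟩
  rw [← hinj.tsum_eq hsup]
  refine tsum_congr (fun j => ?_)
  have : w0 (Nat.succ j) = 1 := by unfold w0; simp
  simp only [this]
  unfold Aj
  push_cast
  rw [abs_zero, Complex.ofReal_zero, zero_add, one_mul]

lemma im0 (t : ℝ) : |(t:ℂ).im| ≤ 1 := by simp

lemma tm (t : ℝ) (j : ℕ) : (t:ℂ) ^ 2 + (a j : ℂ) ^ 2 ≠ 0 := ne0 (im0 t) j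

theorem thm : EC237.ZE.G_K0F := by
  have hS2 : 0 ≤ ∑' j : ℕ, 1 / a j ^ 2 := tsum_nonneg (fun j => by positivity)
  have hS3 : 0 ≤ ∑' j : ℕ, 1 / a j ^ 3 := tsum_nonneg (fun j => by
    have := a_ge j
    positivity)
  have hS4 : 0 ≤ ∑' j : ℕ, 1 / a j ^ 4 := tsum_nonneg (fun j => by positivity)
  set C1 : ℝ := (16 / 9 * ∑' j : ℕ, 1 / a j ^ 2) ^ 2 with hC1
  set C2 : ℝ := 16 / 3 * ∑' j : ℕ, 1 / a j ^ 3 with hC2
  set C3 : ℝ := 4 / 3 * (64 / 9 * ∑' j : ℕ, 1 / a j ^ 4) with hC3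
  have hC1' : 0 ≤ C1 := by positivity
  have hC2' : 0 ≤ C2 := by positivity
  have hC3' : 0 ≤ C3 := by positivity
  refine ⟨C1 + C2 + C3 + 1, by positivity, ?_, ?_, ?_, ?_, ?_, ?_, ?_⟩
  · intro F hF
    simp only [Set.mem_insert_iff, Set.mem_singleton_iff] at hF
    rcases hF with rfl | rfl | rfl
    · refine ⟨dgh.pow 2, fun t ht => ?_⟩
      have ht1 : |t.im| ≤ 1 := by linarith
      have h1 : ‖gh t‖ ≤ 16 / 9 * (1 / Real.sqrt (1 + t.re ^ 2)) * ∑' j : ℕ, 1 / a j ^ 2 := by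
        unfold gh
        rw [← tsum_mul_left]
        exact tsum_of_norm_bounded ((sum_a 2 le_rfl).mul_left _).hasSum (bG ht1)
      have h2 : ‖gh t ^ 2‖ ≤ C1 / (1 + t.re ^ 2) := by
        rw [norm_pow]
        refine (pow_le_pow_left₀ (norm_nonneg _) h1 2).trans (le_of_eq ?_)
        rw [hC1]
        have hsq : (1 / Real.sqrt (1 + t.re ^ 2)) ^ 2 = 1 / (1 + t.re ^ 2) := by
          rw [div_pow, Real.sq_sqrt (by positivity), one_pow]
        rw [mul_pow, mul_pow, mul_pow, hsq]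
        ring
      refine h2.trans ?_
      apply div_le_div_of_nonneg_right _ (by positivity)
      linarith
    · refine ⟨dg2, fun t ht => ?_⟩
      have ht1 : |t.im| ≤ 1 := by linarith
      have h1 : ‖g2 t‖ ≤ 16 / 3 * (1 / (1 + t.re ^ 2)) * ∑' j : ℕ, 1 / a j ^ 3 := by
        unfold g2
        rw [← tsum_mul_left, norm_neg]
        exact tsum_of_norm_bounded ((sum_a 3 (by norm_num)).mul_left _).hasSum (bH ht1)
      refine h1.trans ?_
      have : 16 / 3 * (1 / (1 + t.re ^ 2)) * ∑' j : ℕ, 1 / a j ^ 3 = C2 / (1 + t.re ^ 2) := by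
        rw [hC2]; ring
      rw [this]
      apply div_le_div_of_nonneg_right _ (by positivity)
      linarith
    · refine ⟨dg3, fun t ht => ?_⟩
      have ht1 : |t.im| ≤ 1 := by linarith
      have h1 : ‖g3' t‖ ≤ 64 / 9 * ∑' j : ℕ, 1 / a j ^ 4 := by
        unfold g3'
        rw [← tsum_mul_left]
        exact tsum_of_norm_bounded ((sum_a 4 (by norm_num)).mul_left _).hasSum (bK ht1)
      have hl := low1 ht
      have h2 : ‖(1 + t ^ 2)⁻¹‖ ≤ 4 / 3 * (1 / (1 + t.re ^ 2)) := by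
        rw [norm_inv]
        have : (‖1 + t ^ 2‖)⁻¹ ≤ (3 / 4 * (1 + t.re ^ 2))⁻¹ := inv_anti₀ (by positivity) hl
        refine this.trans (le_of_eq ?_)
        field_simp
      rw [g3_eq, norm_mul]
      refine (mul_le_mul h2 h1 (norm_nonneg _) (by positivity)).trans ?_
      have : 4 / 3 * (1 / (1 + t.re ^ 2)) * (64 / 9 * ∑' j : ℕ, 1 / a j ^ 4) =
          C3 / (1 + t.re ^ 2) := by rw [hC3]; ring
      rw [this]
      apply div_le_div_of_nonneg_right _ (by positivity)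
      linarith
  · intro t
    have s1 := sG (im0 t)
    have s2 := sH (im0 t)
    have s0 : Summable (fun j : ℕ => Aj j / ((0:ℂ) ^ 2 + Aj j ^ 2) ^ 2) := by
      have := sG (im0 0)
      simpa using this
    unfold gh g2
    rw [mul_neg, ← tsum_mul_left, ← sub_eq_add_neg, ← s0.tsum_sub (s2.mul_left _)]
    refine tsum_congr (fun j => ?_)
    have h1 := tm t j
    have h2 := aC j
    rw [Aj_eq]
    field_simp
    ring
  · intro t
    have s2 := sH (im0 t)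
    have s0 : Summable (fun j : ℕ => ((0:ℂ) ^ 2 + 2 * Aj j ^ 2) /
        (Aj j ^ 3 * ((0:ℂ) ^ 2 + Aj j ^ 2) ^ 2)) := by
      have := sH (im0 0)
      simpa using this
    have s3 := sK (im0 t)
    have h1t : (1:ℂ) + (t:ℂ) ^ 2 ≠ 0 := by
      have : (0:ℝ) < 1 + t ^ 2 := by positivity
      exact_mod_cast this.ne'
    rw [g3_eq]
    unfold g2 g3'
    have e : (t:ℂ) * ((1 + (t:ℂ) ^ 2)⁻¹ * ∑' j : ℕ, (t:ℂ) * (3 * Aj j ^ 2 - 2 * Aj j ^ 4 +
        (2 - Aj j ^ 2) * (t:ℂ) ^ 2) / (Aj j ^ 5 * ((t:ℂ) ^ 2 + Aj j ^ 2) ^ 2)) =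
        ∑' j : ℕ, ((t:ℂ) * (1 + (t:ℂ) ^ 2)⁻¹) * ((t:ℂ) * (3 * Aj j ^ 2 - 2 * Aj j ^ 4 +
        (2 - Aj j ^ 2) * (t:ℂ) ^ 2) / (Aj j ^ 5 * ((t:ℂ) ^ 2 + Aj j ^ 2) ^ 2)) := by
      rw [tsum_mul_left]; ring
    rw [e]
    rw [neg_div, ← tsum_div_const, add_comm, ← sub_eq_add_neg]
    rw [← (s3.mul_left ((t:ℂ) * (1 + (t:ℂ) ^ 2)⁻¹)).tsum_sub (s0.div_const (1 + (t:ℂ) ^ 2)),
      ← tsum_neg]
    refine tsum_congr (fun j => ?_)
    have h1 := tm t j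
    have h2 := aC j
    rw [Aj_eq]
    field_simp
    ring
  · unfold g2 zeta5
    have : (∑' n : ℕ, 1 / ((n:ℝ) + 1) ^ 5) / 16 = ∑' n : ℕ, 1 / ((n:ℝ) + 1) ^ 5 / 16 :=
      (tsum_div_const).symm
    rw [this]
    push_cast
    congr 1
    refine tsum_congr (fun j => ?_)
    have h2 : (0:ℝ) < (j:ℝ) + 1 := by positivity
    have h3 : ((j:ℂ) + 1) ≠ 0 := by exact_mod_cast h2.ne'
    unfold Aj
    field_simp
    ring
  · intro t
    unfold g3
    rw [← tsum_neg]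
    refine tsum_congr (fun j => ?_)
    rw [neg_sq]
    ring
  · intro t
    exact tauc_eq _
  · have e1 : (fun t : ℝ => gh (t:ℂ) ^ 2) = fun t : ℝ => ((ghr t ^ 2 : ℝ) : ℂ) := by
      funext t
      rw [gh_real]
      push_cast
      rfl
    rw [e1]
    refine (integral_ofReal (𝕜 := ℂ) (f := fun t : ℝ => ghr t ^ 2)).trans ?_
    congr 1
    apply integral_congr_ae
    filter_upwards [compl_mem_ae_iff.2 (measure_singleton (0:ℝ))] with t ht
    have ht0 : t ≠ 0 := ht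
    rw [taur_real]
    push_cast
    field_simp
    ring

end EC237.ZE.PkK0F
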